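import Pool.Agent.H59.L.S8.Y506.RG.Stm

/-!
# Project RG, (TILT): the tilt with barycentre in the section (helper497)
-/

set_option autoImplicit false

namespace Pool.Agent.Y497.RG

open MeasureTheory Set Filter Topology
open scoped ENNReal InnerProductSpace
open Pool.Agent.W695.KH (Eu)
open Pool.Agent.Y506.RG

theorem gd_cont {h : ℝ → ℝ} (hh : GD h) : Continuous h := by
  obtain ⟨V', A, -, hd, -, -⟩ := hh.pot
  have h1 : Continuous fun s => -Real.log (h s) :=
    continuous_iff_continuousAt.2 fun s => (hd s).continuousAt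
  have h2 : Continuous fun s => Real.exp (-(-Real.log (h s))) := Real.continuous_exp.comp h1.neg
  exact h2.congr fun s => by rw [neg_neg, Real.exp_log (hh.pos s)]

theorem gd_int0 {h : ℝ → ℝ} (hh : GD h) (a : ℝ) :
    Integrable fun s => h s * Real.exp (a * s) := by
  have hc := gd_cont hh
  refine (hh.exps a).mono' (by fun_prop) (Eventually.of_forall fun s => ?_)
  have h1 := hh.pos s
  rw [Real.norm_of_nonneg (by positivity)]
  have h2 : 0 < h s * Real.exp (a * s) := by positivity
  nlinarith [sq_nonneg s]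

theorem gd_int1 {h : ℝ → ℝ} (hh : GD h) (a : ℝ) :
    Integrable fun s => s * (h s * Real.exp (a * s)) := by
  have hc := gd_cont hh
  refine (hh.exps a).mono' (by fun_prop) (Eventually.of_forall fun s => ?_)
  have h1 := hh.pos s
  have h2 : 0 < h s * Real.exp (a * s) := by positivity
  rw [norm_mul, Real.norm_of_nonneg h2.le, Real.norm_eq_abs, mul_assoc]
  refine mul_le_mul_of_nonneg_right ?_ h2.le
  nlinarith [sq_abs s, sq_nonneg (|s| - 1), abs_nonneg s]

/-- the Laplace transform -/
noncomputable def ZZ (h : ℝ → ℝ) (a : ℝ) : ℝ := ∫ s, h s * Real.exp (a * s)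

theorem gd_deriv {h : ℝ → ℝ} (hh : GD h) (a : ℝ) :
    HasDerivAt (ZZ h) (∫ s, s * (h s * Real.exp (a * s))) a := by
  have hc := gd_cont hh
  have hb : Integrable fun s => (1 + s ^ 2) * h s * Real.exp ((a + 1) * s) +
      (1 + s ^ 2) * h s * Real.exp ((a - 1) * s) := (hh.exps (a + 1)).add (hh.exps (a - 1))
  refine (hasDerivAt_integral_of_dominated_loc_of_deriv_le (μ := volume)
    (F := fun a s => h s * Real.exp (a * s)) (F' := fun a s => s * (h s * Real.exp (a * s)))
    (s := Metric.ball a 1) (Metric.ball_mem_nhds a one_pos) ?_ (gd_int0 hh a) ?_ ?_ hb ?_).2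
  · exact Eventually.of_forall fun x => (gd_int0 hh x).aestronglyMeasurable
  · exact (gd_int1 hh a).aestronglyMeasurable
  · refine Eventually.of_forall fun s x hx => ?_
    rw [Metric.mem_ball, Real.dist_eq, abs_lt] at hx
    have h1 := hh.pos s
    have h2 : 0 < h s * Real.exp (x * s) := by positivity
    rw [norm_mul, Real.norm_of_nonneg h2.le, Real.norm_eq_abs]
    have h3 : Real.exp (x * s) ≤ Real.exp ((a + 1) * s) + Real.exp ((a - 1) * s) := by
      rcases le_total 0 s with hs | hs
      · have : Real.exp (x * s) ≤ Real.exp ((a + 1) * s) := Real.exp_le_exp.2 (by nlinarith)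
        have := Real.exp_pos ((a - 1) * s)
        linarith
      · have : Real.exp (x * s) ≤ Real.exp ((a - 1) * s) := Real.exp_le_exp.2 (by nlinarith)
        have := Real.exp_pos ((a + 1) * s)
        linarith
    have h4 : |s| ≤ 1 + s ^ 2 := by nlinarith [sq_abs s, sq_nonneg (|s| - 1), abs_nonneg s]
    calc |s| * (h s * Real.exp (x * s)) ≤ (1 + s ^ 2) * (h s * Real.exp (x * s)) :=
          mul_le_mul_of_nonneg_right h4 h2.le
      _ ≤ (1 + s ^ 2) * (h s * (Real.exp ((a + 1) * s) + Real.exp ((a - 1) * s))) := by gcongr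
      _ = _ := by ring
  · refine Eventually.of_forall fun s x _ => ?_
    have h1 : HasDerivAt (fun a : ℝ => a * s) s x := by
      simpa using (hasDerivAt_id x).mul_const s
    have h2 : HasDerivAt (fun a => h s * Real.exp (a * s)) (h s * (Real.exp (x * s) * s)) x :=
      (h1.exp).const_mul (h s)
    rw [show h s * (Real.exp (x * s) * s) = s * (h s * Real.exp (x * s)) by ring] at h2
    exact h2

theorem gd_lower {h : ℝ → ℝ} (hh : GD h) : ∃ c : ℝ, 0 < c ∧ ∀ a, c * Real.exp |a| ≤ ZZ h a := by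
  have hc := gd_cont hh
  obtain ⟨s0, -, hs0⟩ := (isCompact_Icc (a := (-2 : ℝ)) (b := 2)).exists_isMinOn
    ⟨0, by norm_num⟩ hc.continuousOn
  refine ⟨h s0, hh.pos s0, fun a => ?_⟩
  have key : ∀ u v : ℝ, -2 ≤ u → v = u + 1 → v ≤ 2 → (∀ s ∈ Icc u v, |a| ≤ a * s) →
      h s0 * Real.exp |a| ≤ ZZ h a := by
    intro u v hu hv hv2 has
    have h1 : ∫ s in Icc u v, h s0 * Real.exp |a| ≤ ∫ s in Icc u v, h s * Real.exp (a * s) := by
      refine setIntegral_mono_on (continuous_const.integrableOn_Icc) (gd_int0 hh a).integrableOn measurableSet_Icc ?_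
      intro s hs
      have h2 : h s0 ≤ h s := hs0 (show s ∈ Icc (-2 : ℝ) 2 from ⟨by linarith [hs.1], by linarith [hs.2]⟩)
      have h3 := has s hs
      have h4 := hh.pos s0
      exact mul_le_mul h2 (Real.exp_le_exp.2 h3) (Real.exp_pos _).le (hh.pos s).le
    have h2 : ∫ s in Icc u v, h s * Real.exp (a * s) ≤ ZZ h a := by
      refine setIntegral_le_integral (gd_int0 hh a) (Eventually.of_forall fun s => ?_)
      have := hh.pos s
      simp only [Pi.zero_apply]
      positivity
    rw [setIntegral_const] at h1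
    have h3 : (volume : Measure ℝ).real (Icc u v) = 1 := by
      rw [Measure.real, Real.volume_Icc, hv]
      simp
    rw [h3, one_smul] at h1
    exact h1.trans h2
  rcases le_total 0 a with ha | ha
  · refine key 1 2 (by norm_num) (by norm_num) le_rfl fun s hs => ?_
    rw [abs_of_nonneg ha]
    nlinarith [hs.1]
  · refine key (-2) (-1) le_rfl (by norm_num) (by norm_num) fun s hs => ?_
    rw [abs_of_nonpos ha]
    nlinarith [hs.2]

theorem norm_le_sum {ι : Type} [Fintype ι] (a : Eu ι) : ‖a‖ ≤ ∑ i, |a i| := by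
  rw [EuclideanSpace.norm_eq]
  refine Real.sqrt_le_iff.2 ⟨Finset.sum_nonneg fun i _ => abs_nonneg _, ?_⟩
  simp only [Real.norm_eq_abs]
  exact Finset.sum_sq_le_sq_sum_of_nonneg fun i _ => abs_nonneg _

theorem tilt : S_TILT := by
  intro ι _ n ell h hh
  choose c hc0 hc using fun i => gd_lower (hh i)
  have hZ0 : ∀ i a, 0 < ZZ (h i) a := fun i a =>
    lt_of_lt_of_le (mul_pos (hc0 i) (Real.exp_pos _)) (hc i a)
  have hd := fun i a => gd_deriv (hh i) a
  let F0 : Submodule ℝ (Eu ι) := (LinearMap.range ell)ᗮ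
  obtain ⟨Λ, hΛ⟩ : ∃ Λ : F0 → ℝ, Λ = fun a : F0 => ∑ i, Real.log (ZZ (h i) ((a : Eu ι) i)) := ⟨_, rfl⟩
  have hcont : Continuous Λ := by
    rw [hΛ]
    refine continuous_finsetSum _ fun i _ => ?_
    have h1 : Continuous (ZZ (h i)) := continuous_iff_continuousAt.2 fun a => (hd i a).continuousAt
    have h2 : Continuous fun a : F0 => (a : Eu ι) i := by fun_prop
    exact (h1.comp h2).log fun a => (hZ0 i _).ne'
  have hlow : ∀ a : F0, ‖a‖ + ∑ i, Real.log (c i) ≤ Λ a := by
    intro a
    rw [hΛ]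
    have h1 : ‖a‖ ≤ ∑ i, |(a : Eu ι) i| := norm_le_sum (a : Eu ι)
    have h2 : ∑ i, |(a : Eu ι) i| + ∑ i, Real.log (c i) ≤
        ∑ i, Real.log (ZZ (h i) ((a : Eu ι) i)) := by
      rw [← Finset.sum_add_distrib]
      refine Finset.sum_le_sum fun i _ => ?_
      have h3 := Real.log_le_log (mul_pos (hc0 i) (Real.exp_pos _)) (hc i ((a : Eu ι) i))
      rw [Real.log_mul (hc0 i).ne' (Real.exp_pos _).ne', Real.log_exp] at h3
      linarith
    linarith
  have htend : Tendsto Λ (cocompact F0) atTop := by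
    refine tendsto_atTop_mono hlow ?_
    exact tendsto_atTop_add_const_right _ _ (tendsto_norm_cocompact_atTop)
  obtain ⟨a, ha⟩ := hcont.exists_forall_le htend
  obtain ⟨m, hm⟩ : ∃ m : Eu ι, ∀ i, m i = (∫ s, s * (h i s * Real.exp ((a : Eu ι) i * s))) /
    ZZ (h i) ((a : Eu ι) i) := ⟨WithLp.toLp 2 fun i => _, fun i => rfl⟩
  have horth : ∀ b : F0, ∑ i, m i * (b : Eu ι) i = 0 := by
    intro b
    have h1 : HasDerivAt (fun τ : ℝ => Λ (a + τ • b)) (∑ i, m i * (b : Eu ι) i) 0 := by
      rw [hΛ]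
      have h2 : ∀ i ∈ Finset.univ, HasDerivAt
          (fun τ : ℝ => Real.log (ZZ (h i) (((a + τ • b : F0) : Eu ι) i))) (m i * (b : Eu ι) i) 0 := by
        intro i _
        have h3 : HasDerivAt (fun τ : ℝ => (((a + τ • b : F0) : Eu ι) i)) ((b : Eu ι) i) 0 := by
          have h4 : HasDerivAt (fun τ : ℝ => (a : Eu ι) i + τ * (b : Eu ι) i) ((b : Eu ι) i) 0 := by
            simpa using ((hasDerivAt_id (0 : ℝ)).mul_const ((b : Eu ι) i)).const_add ((a : Eu ι) i)
          exact h4
        have h5 : HasDerivAt (ZZ (h i))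
            (∫ s, s * (h i s * Real.exp ((a : Eu ι) i * s))) (((a + (0 : ℝ) • b : F0) : Eu ι) i) := by
          have := hd i ((a : Eu ι) i)
          simpa using this
        have h55 : HasDerivAt (fun τ : ℝ => ZZ (h i) (((a + τ • b : F0) : Eu ι) i))
            ((∫ s, s * (h i s * Real.exp ((a : Eu ι) i * s))) * (b : Eu ι) i) 0 :=
          HasDerivAt.comp (h₂ := ZZ (h i)) (h := fun τ : ℝ => ((a + τ • b : F0) : Eu ι) i)
            (0 : ℝ) h5 h3
        have h6 := h55.log (hZ0 i _).ne'
        have h7 : m i * (b : Eu ι) i = (∫ s, s * (h i s * Real.exp ((a : Eu ι) i * s))) *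
            (b : Eu ι) i / ZZ (h i) (((a + (0 : ℝ) • b : F0) : Eu ι) i) := by
          rw [hm, zero_smul, add_zero]
          ring
        rw [h7]
        exact h6
      exact HasDerivAt.fun_sum h2
    have h2 : IsLocalMin (fun τ : ℝ => Λ (a + τ • b)) 0 := by
      refine Eventually.of_forall fun τ => ?_
      simp only [zero_smul, add_zero]
      exact ha _
    exact h2.hasDerivAt_eq_zero h1
  have hmem : m ∈ LinearMap.range ell := by
    rw [← Submodule.orthogonal_orthogonal (LinearMap.range ell), Submodule.mem_orthogonal]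
    intro b hb
    have h1 := horth ⟨b, hb⟩
    rw [PiLp.inner_apply]
    simpa using h1
  obtain ⟨x0, hx0⟩ := hmem
  refine ⟨fun i => (a : Eu ι) i, x0, fun x => ?_, fun i => ?_⟩
  · have h1 := (Submodule.mem_orthogonal _ _).1 a.2 (ell x) ⟨x, rfl⟩
    rw [PiLp.inner_apply] at h1
    simpa using h1
  · rw [hx0, hm]
    exact (div_mul_cancel₀ _ (hZ0 i _).ne').symm

end Pool.Agent.Y497.RG
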